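import Pool.Agent.helper70.LE.SpecN

/-!
# Row RK1 (project LE): a hermitian idempotent matrix of trace one has rank one
-/

set_option autoImplicit false

open Complex

namespace Pool.Agent.LE

theorem RK1_zero (Ω : Type) [Fintype Ω] (Q : Ω → Ω → ℂ) (h1 : ∀ x x', Q x' x = (starRingEnd ℂ) (Q x x'))
    (h2 : ∀ x x'', ∑ x', Q x x' * Q x' x'' = Q x x'') (h3 : ∑ x, Q x x = 0) : ∀ x x', Q x x' = 0 := by
  have h4 : ∀ x, Q x x = ((∑ x', ‖Q x x'‖ ^ 2 : ℝ) : ℂ) := by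
    intro x
    rw [← h2 x x, Complex.ofReal_sum]
    refine Finset.sum_congr rfl fun x' _ => ?_
    rw [h1 x x', Complex.mul_conj, Complex.normSq_eq_norm_sq]
  have h5 : ∑ x, ∑ x', ‖Q x x'‖ ^ 2 = 0 := by
    have : ((∑ x, ∑ x', ‖Q x x'‖ ^ 2 : ℝ) : ℂ) = 0 := by
      rw [Complex.ofReal_sum, ← h3]
      exact Finset.sum_congr rfl fun x _ => (h4 x).symm
    exact_mod_cast this
  intro x x'
  have h6 := (Finset.sum_eq_zero_iff_of_nonneg (fun x _ => Finset.sum_nonneg fun x' _ => by positivity)).1 h5 x (Finset.mem_univ x)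
  have h7 := (Finset.sum_eq_zero_iff_of_nonneg (fun x' _ => by positivity)).1 h6 x' (Finset.mem_univ x')
  exact norm_eq_zero.1 (by nlinarith [norm_nonneg (Q x x')] : ‖Q x x'‖ = 0)

theorem RK1 : RK1_stmt := by
  intro Ω _ P h1 h2 h3
  have h4 : ∀ x, P x x = ((∑ x', ‖P x x'‖ ^ 2 : ℝ) : ℂ) := by
    intro x
    rw [← h2 x x, Complex.ofReal_sum]
    refine Finset.sum_congr rfl fun x' _ => ?_
    rw [h1 x x', Complex.mul_conj, Complex.normSq_eq_norm_sq]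
  have h5 : ∑ x, ∑ x', ‖P x x'‖ ^ 2 = 1 := by
    have : ((∑ x, ∑ x', ‖P x x'‖ ^ 2 : ℝ) : ℂ) = 1 := by
      rw [Complex.ofReal_sum, ← h3]
      exact Finset.sum_congr rfl fun x _ => (h4 x).symm
    exact_mod_cast this
  obtain ⟨x₀, hx₀⟩ : ∃ x₀, 0 < ∑ x', ‖P x₀ x'‖ ^ 2 := by
    by_contra h
    push Not at h
    have : ∑ x, ∑ x', ‖P x x'‖ ^ 2 ≤ 0 := Finset.sum_nonpos fun x _ => h x
    linarith
  set c : ℝ := ∑ x', ‖P x₀ x'‖ ^ 2 with hc
  have hs : 0 < Real.sqrt c := Real.sqrt_pos.2 hx₀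
  have hs2 : ((Real.sqrt c : ℝ) : ℂ) * ((Real.sqrt c : ℝ) : ℂ) = (c : ℂ) := by
    rw [← Complex.ofReal_mul, Real.mul_self_sqrt hx₀.le]
  have hs0 : ((Real.sqrt c : ℝ) : ℂ) ≠ 0 := by exact_mod_cast hs.ne'
  have hc0 : (c : ℂ) ≠ 0 := by exact_mod_cast hx₀.ne'
  set F : Ω → ℂ := fun x => P x x₀ / ((Real.sqrt c : ℝ) : ℂ) with hF
  have hcF : ∀ x, (starRingEnd ℂ) (F x) = P x₀ x / ((Real.sqrt c : ℝ) : ℂ) := by
    intro x
    rw [hF]
    simp only [map_div₀, Complex.conj_ofReal]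
    rw [← h1 x x₀]
  have hn : ∑ x, F x * (starRingEnd ℂ) (F x) = 1 := by
    have e1 : ∀ x, F x * (starRingEnd ℂ) (F x) = P x₀ x * P x x₀ / (c : ℂ) := by
      intro x
      rw [hcF, hF]
      simp only
      rw [div_mul_div_comm, hs2, mul_comm]
    simp_rw [e1]
    rw [← Finset.sum_div, h2, h4 x₀, ← hc, div_self hc0]
  have hPF : ∀ x, ∑ x', P x x' * F x' = F x := by
    intro x
    rw [hF]
    simp only
    simp_rw [← mul_div_assoc]
    rw [← Finset.sum_div, h2]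
  have hPF2 : ∀ x'', ∑ x', (starRingEnd ℂ) (F x') * P x' x'' = (starRingEnd ℂ) (F x'') := by
    intro x''
    rw [← hPF x'', map_sum]
    refine Finset.sum_congr rfl fun x' _ => ?_
    rw [map_mul, mul_comm, ← h1]
  have hQ := RK1_zero Ω (fun x x' => P x x' - F x * (starRingEnd ℂ) (F x')) ?_ ?_ ?_
  · exact ⟨F, fun x x' => sub_eq_zero.1 (hQ x x'), hn⟩
  · intro x x'
    simp only [map_sub, map_mul, Complex.conj_conj]
    rw [h1 x x', mul_comm]
  · intro x x''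
    have e : ∀ x', (P x x' - F x * (starRingEnd ℂ) (F x')) * (P x' x'' - F x' * (starRingEnd ℂ) (F x'')) =
        P x x' * P x' x'' - (P x x' * F x') * (starRingEnd ℂ) (F x'') - F x * ((starRingEnd ℂ) (F x') * P x' x'') +
          F x * (F x' * (starRingEnd ℂ) (F x')) * (starRingEnd ℂ) (F x'') := fun x' => by ring
    simp_rw [e]
    rw [Finset.sum_add_distrib, Finset.sum_sub_distrib, Finset.sum_sub_distrib, ← Finset.sum_mul, ← Finset.mul_sum,
      ← Finset.sum_mul, ← Finset.mul_sum, h2, hPF, hPF2, hn]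
    ring
  · rw [Finset.sum_sub_distrib, h3, hn, sub_self]

end Pool.Agent.LE
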